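import Pool.Agent.TH926.FFR.Least

/-!
Moduli with a bounded number of prime factors, and almost all moduli.
-/

set_option autoImplicit false

open Finset Filter

namespace Pool.Agent.TH926.FFR

open Pool.Agent.TH926.EH

lemma log_half {Q q m : ℕ} (hQ : 1 ≤ Q) (hl : 1 ≤ Real.log Q) (h2m : Real.log Q ^ (2 * m) ≤ Q)
    (hq : Q / Real.log Q ^ m < q) : Real.log Q ≤ 2 * Real.log q := by
  set ℓ := Real.log Q with hℓ
  have hQ0 : (0:ℝ) < Q := by exact_mod_cast (by omega : 0 < Q)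
  have hl0 : 0 < ℓ := by linarith
  rw [div_lt_iff₀ (by positivity)] at hq
  have hq0 : (0:ℝ) < q := by
    by_contra hcon
    have h1 : (q:ℝ) = 0 := le_antisymm (not_lt.1 hcon) (Nat.cast_nonneg q)
    rw [h1, zero_mul] at hq
    linarith
  have h1 : (Q:ℝ) * Q ≤ (q:ℝ) ^ 2 * Q := by
    calc (Q:ℝ) * Q ≤ (q * ℓ ^ m) * (q * ℓ ^ m) := by gcongr
      _ = (q:ℝ) ^ 2 * ℓ ^ (2 * m) := by ring
      _ ≤ (q:ℝ) ^ 2 * Q := by gcongr
  have h2 : (Q:ℝ) ≤ (q:ℝ) ^ 2 := le_of_mul_le_mul_right h1 hQ0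
  calc ℓ ≤ Real.log ((q:ℝ) ^ 2) := Real.log_le_log hQ0 h2
    _ = 2 * Real.log q := by rw [Real.log_pow]; norm_num

lemma count_small (T : Finset ℕ) (Q : ℕ) (hT : ∀ q ∈ T, q ∈ Icc 1 Q) (z : ℝ) (hz : 0 ≤ z) :
    ((T.filter (fun q : ℕ => ¬ z < q)).card : ℝ) ≤ z := by
  have h1 : T.filter (fun q : ℕ => ¬ z < q) ⊆ Icc 1 ⌊z⌋₊ := by
    intro q hq
    rw [mem_filter] at hq
    rw [mem_Icc]
    exact ⟨(mem_Icc.1 (hT q hq.1)).1, Nat.le_floor (not_lt.1 hq.2)⟩
  have h2 := card_le_card h1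
  rw [Nat.card_Icc, Nat.add_sub_cancel] at h2
  calc ((T.filter (fun q : ℕ => ¬ z < q)).card : ℝ) ≤ (⌊z⌋₊ : ℝ) := by exact_mod_cast h2
    _ ≤ z := Nat.floor_le hz

/-- moduli with at most `k` prime factors -/
theorem fixed_k (B : ℝ) (hB : 0 ≤ B) (k V : ℕ) : ∃ C Q0 : ℕ, ∀ Q : ℕ, Q0 ≤ Q →
    ∀ (ι : Type) (I : Finset ι) (c : ι → ℕ → ℕ), Sep I c (Icc 1 Q) ((Q:ℝ) ^ B) →
    (∀ i ∈ I, ∃ T : Finset ℕ, Q / Real.log Q ^ V < T.card ∧
      ∀ q ∈ T, q ∈ Icc 1 Q ∧ (c i q).Coprime q ∧ q.primeFactors.card ≤ k ∧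
        ¬ HasP (c i q) q (q * Real.log q ^ C)) →
    (I.card : ℝ) ≤ Q / Real.log Q ^ V := by
  classical
  obtain ⟨C2, hC2, Q1, hQ1⟩ := least_y B hB (V + 1)
  set M : ℕ := (V + 1) + k + C2 with hM
  obtain ⟨Q2, hQ2⟩ := ev_large (2 + C2 + 2 * ((C2:ℝ) ^ k * 2 ^ M)) (2 * (V + 1) + 2 * k)
  refine ⟨M + 1, max Q1 Q2, fun Q hQ ι I c hS hI => ?_⟩
  obtain ⟨hQ3, hT, hlc⟩ := hQ2 Q ((le_max_right _ _).trans hQ)
  set ℓ := Real.log Q with hℓ
  have hC2' : (1:ℝ) ≤ C2 := by exact_mod_cast hC2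
  have p1 : 0 < 2 * ((C2:ℝ) ^ k * 2 ^ M) := by positivity
  have hl2 : 2 ≤ ℓ := by linarith
  have hlC : (C2:ℝ) ≤ ℓ := by linarith
  have hlM : 2 * ((C2:ℝ) ^ k * 2 ^ M) ≤ ℓ := by linarith
  have hl1 : 1 ≤ ℓ := by linarith
  have hl0 : 0 < ℓ := by linarith
  have hQp : (0:ℝ) < Q := by exact_mod_cast (by omega : 0 < Q)
  have hb : 1 ≤ (C2:ℝ) * ℓ := by nlinarith
  set y : ℝ := ((C2:ℝ) * ℓ) ^ k with hy
  have hy1 : 1 ≤ y := one_le_pow₀ hb
  have hyQ : y ≤ Q := by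
    calc y ≤ (ℓ * ℓ) ^ k := by
          rw [hy]
          gcongr
      _ = ℓ ^ (2 * k) := by rw [← sq, pow_mul]
      _ ≤ ℓ ^ (2 * (V + 1) + 2 * k) := pow_le_pow_right₀ hl1 (by omega)
      _ ≤ Q := hlc
  have h2m : ℓ ^ (2 * (V + 1)) ≤ Q := (pow_le_pow_right₀ hl1 (by omega)).trans hlc
  have key := hQ1 Q ((le_max_left _ _).trans hQ) y hy1 hyQ ι I c hS (by
    intro i hi
    obtain ⟨T, hTc, hTq⟩ := hI i hi
    refine ⟨T.filter (fun q : ℕ => Q / ℓ ^ (V + 1) < q), ?_, ?_⟩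
    · have h1 := count_small T Q (fun q hq => (hTq q hq).1) (Q / ℓ ^ (V + 1)) (by positivity)
      have h2 : ((T.filter (fun q : ℕ => Q / ℓ ^ (V + 1) < q)).card : ℝ) +
          ((T.filter (fun q : ℕ => ¬ Q / ℓ ^ (V + 1) < q)).card : ℝ) = T.card := by
        exact_mod_cast card_filter_add_card_filter_not (s := T)
          (fun q : ℕ => Q / ℓ ^ (V + 1) < (q:ℝ))
      have h3 : 2 * (Q / ℓ ^ (V + 1)) ≤ Q / ℓ ^ V := by
        rw [pow_succ, ← mul_div_assoc, div_le_div_iff₀ (by positivity) (by positivity)]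
        calc 2 * (Q:ℝ) * ℓ ^ V ≤ ℓ * Q * ℓ ^ V := by gcongr
          _ = _ := by ring
      linarith
    · intro q hq
      rw [mem_filter] at hq
      obtain ⟨t1, t2, t3, t4⟩ := hTq q hq.1
      refine ⟨t1, t2, pow_le_pow_right₀ hb t3, fun ⟨p, hp, hpa, hpy⟩ => t4 ⟨p, hp, hpa, ?_⟩⟩
      have h5 : ℓ ≤ 2 * Real.log q := log_half (by omega) hl1 h2m hq.2
      have h6 := hq.2
      rw [div_lt_iff₀ (by positivity)] at h6
      have hlq0 : 0 < Real.log q := by linarith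
      have h7 : (C2:ℝ) ^ k * 2 ^ M ≤ Real.log q := by linarith
      calc (p:ℝ) ≤ Q * y * ℓ ^ C2 := hpy
        _ ≤ (q * ℓ ^ (V + 1)) * y * ℓ ^ C2 := by gcongr
        _ = q * ((C2:ℝ) ^ k * ℓ ^ M) := by
            rw [hy, hM, mul_pow]; ring
        _ ≤ q * ((C2:ℝ) ^ k * (2 * Real.log q) ^ M) := by gcongr
        _ = q * (((C2:ℝ) ^ k * 2 ^ M) * Real.log q ^ M) := by
            rw [mul_pow]; ring
        _ ≤ q * (Real.log q * Real.log q ^ M) := by gcongr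
        _ = _ := by ring)
  refine key.trans ?_
  apply div_le_div_of_nonneg_left hQp.le (by positivity)
  calc ℓ ^ V ≤ ℓ ^ (V + 1) := pow_le_pow_right₀ hl1 (by omega)
    _ = 1 * ℓ ^ (V + 1) := by ring
    _ ≤ y * ℓ ^ (V + 1) := by gcongr

lemma ev_large2 (T K : ℝ) (c : ℕ) : ∃ Q0 : ℕ, ∀ Q : ℕ, Q0 ≤ Q →
    3 ≤ Q ∧ T ≤ Real.log Q ∧ Real.log Q ^ c ≤ Q ∧ K * Real.log (Real.log Q) ^ 2 ≤ Real.log Q := by
  have e1 : ∀ᶠ X : ℝ in atTop, K * Real.log X ^ 2 ≤ X ^ (1:ℝ) :=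
    Pool.Agent.H398R2.BV.ev_log K 2 1 one_pos
  have e2 := Real.tendsto_log_atTop.eventually e1
  have e3 := tendsto_natCast_atTop_atTop (R := ℝ) |>.eventually e2
  obtain ⟨Q1, h1⟩ := ev_large T c
  obtain ⟨Q2, h2⟩ := eventually_atTop.1 e3
  refine ⟨max Q1 Q2, fun Q hQ => ?_⟩
  obtain ⟨h3, h4, h5⟩ := h1 Q ((le_max_left _ _).trans hQ)
  have h6 := h2 Q ((le_max_right _ _).trans hQ)
  rw [Real.rpow_one] at h6
  exact ⟨h3, h4, h5, h6⟩

/-- almost all moduli -/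
theorem almost_all (B : ℝ) (hB : 0 ≤ B) (V : ℕ) : ∃ C Q0 : ℕ, ∀ Q : ℕ, Q0 ≤ Q →
    ∀ (ι : Type) (I : Finset ι) (c : ι → ℕ → ℕ), Sep I c (Icc 1 Q) ((Q:ℝ) ^ B) →
    (∀ i ∈ I, ∃ T : Finset ℕ, Q / Real.log Q ^ V < T.card ∧
      ∀ q ∈ T, q ∈ Icc 1 Q ∧ (c i q).Coprime q ∧
        ¬ HasP (c i q) q (q * Real.exp (C * Real.log (Real.log q) ^ 2))) →
    (I.card : ℝ) ≤ Q / Real.exp (V * Real.log (Real.log Q) ^ 2) := by
  classical
  obtain ⟨C2, hC2, Q1, hQ1⟩ := least_y B hB (V + 1)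
  set K : ℕ := 4 * (V + 3) with hK
  set M : ℕ := (V + 1) + C2 + K with hM
  obtain ⟨Q2, hQ2⟩ := ev_large2 (4 + C2) K (2 * (V + 1))
  refine ⟨4 * M, max Q1 Q2, fun Q hQ ι I c hS hI => ?_⟩
  obtain ⟨hQ3, hT, hlc, hh⟩ := hQ2 Q ((le_max_right _ _).trans hQ)
  set ℓ := Real.log Q with hℓ
  set h := Real.log ℓ with hhd
  have hC2' : (1:ℝ) ≤ C2 := by exact_mod_cast hC2
  have hl4 : 4 ≤ ℓ := by linarith
  have hlC : (C2:ℝ) ≤ ℓ := by linarith
  have hl1 : 1 ≤ ℓ := by linarith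
  have hl0 : 0 < ℓ := by linarith
  have hQp : (0:ℝ) < Q := by exact_mod_cast (by omega : 0 < Q)
  have hh1 : 1 ≤ h := by
    rw [hhd, Real.le_log_iff_exp_le hl0]
    have := Real.exp_one_lt_d9
    linarith
  have hexp : Real.exp h = ℓ := Real.exp_log hl0
  set y : ℝ := Real.exp (K * h ^ 2) with hy
  have hy0 : 0 < y := Real.exp_pos _
  have hy1 : 1 ≤ y := Real.one_le_exp (by positivity)
  have hyQ : y ≤ Q := by
    calc y ≤ Real.exp ℓ := Real.exp_le_exp.2 hh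
      _ = Q := Real.exp_log hQp
  have key := hQ1 Q ((le_max_left _ _).trans hQ) y hy1 hyQ ι I c hS (by
    intro i hi
    obtain ⟨T, hTc, hTq⟩ := hI i hi
    set T1 := T.filter (fun q : ℕ => Q / ℓ ^ (V + 1) < q) with hT1
    refine ⟨T1.filter (fun q : ℕ => (2:ℝ) ^ q.primeFactors.card ≤ ℓ ^ (V + 3)), ?_, ?_⟩
    · have h1 := count_small T Q (fun q hq => (hTq q hq).1) (Q / ℓ ^ (V + 1)) (by positivity)
      have h2 : (T1.card : ℝ) +
          ((T.filter (fun q : ℕ => ¬ Q / ℓ ^ (V + 1) < q)).card : ℝ) = T.card := by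
        rw [hT1]
        exact_mod_cast card_filter_add_card_filter_not (s := T)
          (fun q : ℕ => Q / ℓ ^ (V + 1) < (q:ℝ))
      have h3 : ((T1.filter (fun q : ℕ => (2:ℝ) ^ q.primeFactors.card ≤ ℓ ^ (V + 3))).card : ℝ) +
          ((T1.filter (fun q : ℕ => ¬ (2:ℝ) ^ q.primeFactors.card ≤ ℓ ^ (V + 3))).card : ℝ) =
          T1.card := by
        exact_mod_cast card_filter_add_card_filter_not (s := T1)
          (fun q : ℕ => (2:ℝ) ^ q.primeFactors.card ≤ ℓ ^ (V + 3))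
      have h4 : ((T1.filter (fun q : ℕ => ¬ (2:ℝ) ^ q.primeFactors.card ≤ ℓ ^ (V + 3))).card : ℝ)
          ≤ Q * (1 + ℓ) / ℓ ^ (V + 3) := by
        refine le_trans ?_ (many_factors Q (ℓ ^ (V + 3)) (by positivity))
        have h5 : T1.filter (fun q : ℕ => ¬ (2:ℝ) ^ q.primeFactors.card ≤ ℓ ^ (V + 3)) ⊆
            (Icc 1 Q).filter (fun q : ℕ => ℓ ^ (V + 3) < (2:ℝ) ^ q.primeFactors.card) := by
          intro q hq
          rw [mem_filter] at hq
          rw [mem_filter]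
          exact ⟨(hTq q (mem_filter.1 hq.1).1).1, not_le.1 hq.2⟩
        exact_mod_cast card_le_card h5
      have h6 : (Q:ℝ) * (1 + ℓ) / ℓ ^ (V + 3) ≤ Q / ℓ ^ (V + 1) := by
        rw [div_le_div_iff₀ (by positivity) (by positivity)]
        calc (Q:ℝ) * (1 + ℓ) * ℓ ^ (V + 1) ≤ Q * (ℓ * ℓ) * ℓ ^ (V + 1) := by
              gcongr
              nlinarith
          _ = _ := by ring
      have h7 : 3 * (Q / ℓ ^ (V + 1)) ≤ Q / ℓ ^ V := by
        rw [pow_succ, ← mul_div_assoc, div_le_div_iff₀ (by positivity) (by positivity)]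
        calc 3 * (Q:ℝ) * ℓ ^ V ≤ ℓ * Q * ℓ ^ V := by
              gcongr
              linarith
          _ = _ := by ring
      linarith
    · intro q hq
      rw [mem_filter, hT1, mem_filter] at hq
      obtain ⟨⟨hqT, hq1⟩, hq2⟩ := hq
      obtain ⟨t1, t2, t4⟩ := hTq q hqT
      have hω : (q.primeFactors.card : ℝ) ≤ 2 * (V + 3) * h := by
        have h1 := Real.log_le_log (by positivity) hq2
        rw [Real.log_pow, Real.log_pow, ← hhd] at h1
        push_cast at h1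
        have h2 := Real.log_two_gt_d9
        have h3 : (0:ℝ) ≤ q.primeFactors.card := Nat.cast_nonneg _
        nlinarith
      refine ⟨t1, t2, ?_, fun ⟨p, hp, hpa, hpy⟩ => t4 ⟨p, hp, hpa, ?_⟩⟩
      · calc ((C2:ℝ) * ℓ) ^ q.primeFactors.card ≤ (ℓ * ℓ) ^ q.primeFactors.card := by gcongr
          _ = Real.exp (q.primeFactors.card * (2 * h)) := by
              rw [← hexp, ← Real.exp_add, ← Real.exp_nat_mul]
              congr 1
              ring
          _ ≤ y := by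
              rw [hy, Real.exp_le_exp]
              calc (q.primeFactors.card : ℝ) * (2 * h) ≤ (2 * (V + 3) * h) * (2 * h) := by gcongr
                _ = K * h ^ 2 := by
                    rw [hK]
                    push_cast
                    ring
      · have h5 : ℓ ≤ 2 * Real.log q := log_half (by omega) hl1 hlc hq1
        have h6 := hq1
        rw [div_lt_iff₀ (by positivity)] at h6
        have hlq0 : 0 < Real.log q := by linarith
        have h8 : h ≤ 2 * Real.log (Real.log q) := by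
          have h9 : ℓ ≤ Real.log q ^ 2 := by nlinarith
          calc h ≤ Real.log (Real.log q ^ 2) := Real.log_le_log hl0 h9
            _ = 2 * Real.log (Real.log q) := by rw [Real.log_pow]; norm_num
        calc (p:ℝ) ≤ Q * y * ℓ ^ C2 := hpy
          _ ≤ (q * ℓ ^ (V + 1)) * y * ℓ ^ C2 := by gcongr
          _ = q * Real.exp (((V + 1 + C2 : ℕ) : ℝ) * h + K * h ^ 2) := by
              rw [Real.exp_add, Real.exp_nat_mul, hexp, ← hy, pow_add]
              ring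
          _ ≤ q * Real.exp ((4 * M : ℕ) * Real.log (Real.log q) ^ 2) := by
              apply mul_le_mul_of_nonneg_left _ (Nat.cast_nonneg q)
              rw [Real.exp_le_exp]
              have h10 : ((V + 1 + C2 : ℕ) : ℝ) * h + K * h ^ 2 ≤ M * h ^ 2 := by
                have h11 : h ≤ h ^ 2 := by nlinarith
                have h12 : ((V + 1 + C2 : ℕ) : ℝ) * h ≤ ((V + 1 + C2 : ℕ) : ℝ) * h ^ 2 := by
                  gcongr
                rw [hM]
                push_cast at h12 ⊢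
                linarith
              refine h10.trans ?_
              have h13 : h ^ 2 ≤ (2 * Real.log (Real.log q)) ^ 2 := by
                apply pow_le_pow_left₀ (by linarith) h8
              calc (M:ℝ) * h ^ 2 ≤ M * (2 * Real.log (Real.log q)) ^ 2 := by gcongr
                _ = _ := by push_cast; ring)
  refine key.trans ?_
  apply div_le_div_of_nonneg_left hQp.le (Real.exp_pos _)
  calc Real.exp (V * h ^ 2) ≤ Real.exp (K * h ^ 2) := by
        rw [Real.exp_le_exp]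
        have : (V:ℝ) ≤ K := by
          rw [hK]
          push_cast
          have : (0:ℝ) ≤ V := Nat.cast_nonneg V
          linarith
        gcongr
    _ = y * 1 := by rw [hy, mul_one]
    _ ≤ y * ℓ ^ (V + 1) := by
        gcongr
        exact one_le_pow₀ hl1

end Pool.Agent.TH926.FFR
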