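import Mathlib

/-!
The number of the divisors with few prime factors.
-/

set_option autoImplicit false

open Finset

namespace Pool.Agent.TH926.FFR

/-- the prime powers dividing `n` -/
noncomputable def pp (n : ℕ) : Finset ℕ := by
  classical
  exact n.divisors.filter (fun d => IsPrimePow d)

lemma mem_pp {n d : ℕ} : d ∈ pp n ↔ (d ∣ n ∧ n ≠ 0) ∧ IsPrimePow d := by
  classical
  unfold pp
  rw [mem_filter, Nat.mem_divisors]

lemma card_pp (n : ℕ) : ((pp n).card : ℝ) * Real.log 2 ≤ Real.log n := by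
  classical
  rw [← ArithmeticFunction.vonMangoldt_sum (n := n), ← nsmul_eq_mul, ← sum_const]
  have h1 : ∑ d ∈ pp n, Real.log 2 ≤ ∑ d ∈ pp n, ArithmeticFunction.vonMangoldt d := by
    apply sum_le_sum
    intro d hd
    have h2 := (mem_pp.1 hd).2
    rw [ArithmeticFunction.vonMangoldt_apply, if_pos h2]
    apply Real.log_le_log (by norm_num)
    have h3 : 2 ≤ d.minFac := (Nat.minFac_prime h2.ne_one).two_le
    exact_mod_cast h3
  refine h1.trans ?_
  unfold pp
  exact sum_le_sum_of_subset_of_nonneg (filter_subset _ _) fun d _ _ =>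
    ArithmeticFunction.vonMangoldt_nonneg

/-- the divisors with at most `k` prime factors -/
noncomputable def Dk (k n : ℕ) : Finset ℕ := n.divisors.filter (fun d => d.primeFactors.card ≤ k)

lemma mem_Dk {k n d : ℕ} : d ∈ Dk k n ↔ (d ∣ n ∧ n ≠ 0) ∧ d.primeFactors.card ≤ k := by
  unfold Dk
  rw [mem_filter, Nat.mem_divisors]

lemma Dk_succ (k n : ℕ) : Dk (k + 1) n ⊆
    ((insert 1 (pp n)) ×ˢ Dk k n).image (fun x : ℕ × ℕ => x.1 * x.2) := by
  classical
  intro q hq
  rw [mem_Dk] at hq
  obtain ⟨⟨hqn, hn⟩, hqk⟩ := hq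
  have hq0 : q ≠ 0 := fun h => hn (by rw [h] at hqn; exact zero_dvd_iff.1 hqn)
  rw [mem_image]
  rcases eq_or_ne q 1 with rfl | hq1
  · refine ⟨(1, 1), ?_, by norm_num⟩
    rw [mem_product, mem_insert, mem_Dk]
    refine ⟨Or.inl rfl, ⟨one_dvd n, hn⟩, ?_⟩
    simp
  · set p := q.minFac with hp
    have hpp : p.Prime := Nat.minFac_prime hq1
    have hv : q.factorization p ≠ 0 := by
      have := (hpp.dvd_iff_one_le_factorization hq0).1 (Nat.minFac_dvd q)
      omega
    have h1 : p ^ q.factorization p * (q / p ^ q.factorization p) = q :=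
      Nat.ordProj_mul_ordCompl_eq_self q p
    have h2 : Nat.Coprime p (q / p ^ q.factorization p) := Nat.coprime_ordCompl hpp hq0
    have h3 : (p ^ q.factorization p).primeFactors = {p} := Nat.primeFactors_prime_pow hv hpp
    refine ⟨(p ^ q.factorization p, q / p ^ q.factorization p), ?_, h1⟩
    rw [mem_product, mem_insert, mem_Dk, mem_pp]
    refine ⟨Or.inr ⟨⟨?_, hn⟩, hpp.isPrimePow.pow hv⟩, ⟨?_, hn⟩, ?_⟩
    · exact (Nat.ordProj_dvd q p).trans hqn
    · exact (Nat.ordCompl_dvd q p).trans hqn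
    · have h4 : (p ^ q.factorization p).Coprime (q / p ^ q.factorization p) := h2.pow_left _
      have h5 : (p ^ q.factorization p * (q / p ^ q.factorization p)).primeFactors.card =
          (p ^ q.factorization p).primeFactors.card +
            (q / p ^ q.factorization p).primeFactors.card := by
        rw [Nat.Coprime.primeFactors_mul h4, card_union_of_disjoint h4.disjoint_primeFactors]
      rw [h1, h3, card_singleton] at h5
      simp only
      omega

lemma card_Dk (k n : ℕ) (hn : n ≠ 0) : (Dk k n).card ≤ (1 + (pp n).card) ^ k := by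
  classical
  induction k with
  | zero =>
    rw [pow_zero, card_le_one]
    intro a ha b hb
    rw [mem_Dk] at ha hb
    have h : ∀ d : ℕ, d ∣ n → d.primeFactors.card ≤ 0 → d = 1 := by
      intro d hd h0
      have hd0 : d ≠ 0 := fun h => hn (by rw [h] at hd; exact zero_dvd_iff.1 hd)
      have h1 : d.primeFactors = ∅ := card_eq_zero.1 (by omega)
      rcases Nat.primeFactors_eq_empty.1 h1 with h | h
      · exact absurd h hd0
      · exact h
    rw [h a ha.1.1 ha.2, h b hb.1.1 hb.2]
  | succ k ih =>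
    refine (card_le_card (Dk_succ k n)).trans (card_image_le.trans ?_)
    rw [card_product, pow_succ, mul_comm]
    apply Nat.mul_le_mul ih
    refine (card_insert_le _ _).trans ?_
    omega

lemma card_Dk' (k n : ℕ) (hn : n ≠ 0) : ((Dk k n).card : ℝ) ≤ (1 + 2 * Real.log n) ^ k := by
  have h1 : ((Dk k n).card : ℝ) ≤ (1 + (pp n).card : ℝ) ^ k := by exact_mod_cast card_Dk k n hn
  refine h1.trans (pow_le_pow_left₀ (by positivity) ?_ k)
  have h2 := card_pp n
  have h3 := Real.log_two_gt_d9
  have h4 : (0:ℝ) ≤ (pp n).card := Nat.cast_nonneg _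
  nlinarith

theorem two_pow_le (q : ℕ) (hq : q ≠ 0) : 2 ^ q.primeFactors.card ≤ q.divisors.card := by
  rw [Nat.card_divisors hq]
  have : ∀ p ∈ q.primeFactors, 2 ≤ q.factorization p + 1 := by
    intro p hp
    have : q.factorization p ≠ 0 := by
      rw [← Nat.support_factorization, Finsupp.mem_support_iff] at hp
      exact hp
    omega
  calc 2 ^ q.primeFactors.card = ∏ _p ∈ q.primeFactors, 2 := by rw [prod_const]
    _ ≤ _ := prod_le_prod' this

lemma sum_divisors_card_le (n : ℕ) :
    (∑ a ∈ Finset.Icc 1 n, (a.divisors.card : ℝ)) ≤ n * (1 + Real.log n) := by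
  have h := ArithmeticFunction.sum_Ioc_sigma0_eq_sum_div n
  have h1 : ∑ a ∈ Finset.Icc 1 n, a.divisors.card = ∑ a ∈ Finset.Ioc 0 n, (n / a) := by
    rw [← h]
    apply Finset.sum_congr
    · ext x; simp [Finset.mem_Icc, Finset.mem_Ioc]; omega
    · intro x _
      rw [ArithmeticFunction.sigma_zero_apply]
  have h2 : (∑ a ∈ Finset.Icc 1 n, (a.divisors.card : ℝ)) = ((∑ a ∈ Finset.Ioc 0 n, (n / a) : ℕ) : ℝ) := by
    rw [← h1]; push_cast; rfl
  rw [h2]
  push_cast
  calc ∑ a ∈ Finset.Ioc 0 n, ((n / a : ℕ) : ℝ) ≤ ∑ a ∈ Finset.Ioc 0 n, (n : ℝ) * ((a : ℝ))⁻¹ := by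
        apply Finset.sum_le_sum
        intro a _
        rw [← div_eq_mul_inv]
        exact Nat.cast_div_le
    _ = n * (harmonic n : ℝ) := by
        rw [← Finset.mul_sum, harmonic_eq_sum_Icc]
        push_cast
        congr 1
    _ ≤ n * (1 + Real.log n) := by
        apply mul_le_mul_of_nonneg_left (harmonic_le_one_add_log n) (by positivity)

/-- few integers have many prime factors -/
lemma many_factors (n : ℕ) (Z : ℝ) (hZ : 0 < Z) :
    (((Icc 1 n).filter (fun q : ℕ => Z < (2:ℝ) ^ q.primeFactors.card)).card : ℝ) ≤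
      n * (1 + Real.log n) / Z := by
  rw [le_div_iff₀ hZ, ← nsmul_eq_mul, ← sum_const]
  refine le_trans ?_ (sum_divisors_card_le n)
  calc ∑ q ∈ (Icc 1 n).filter (fun q : ℕ => Z < (2:ℝ) ^ q.primeFactors.card), Z ≤
      ∑ q ∈ (Icc 1 n).filter (fun q : ℕ => Z < (2:ℝ) ^ q.primeFactors.card),
        (q.divisors.card : ℝ) := by
        apply sum_le_sum
        intro q hq
        rw [mem_filter, mem_Icc] at hq
        refine hq.2.le.trans ?_
        exact_mod_cast two_pow_le q (by omega)
    _ ≤ _ := sum_le_sum_of_subset_of_nonneg (filter_subset _ _) fun q _ _ => Nat.cast_nonneg _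

end Pool.Agent.TH926.FFR
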