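import Pool.Agent.TH926.FFR.Res
import Pool.Agent.TH926.FFR.Div

/-!
Moduli with few prime factors: separated families of residue systems and the number of the bad
members.
-/

set_option autoImplicit false

open Finset

namespace Pool.Agent.TH926.FFR

open Pool.Agent.TH926.EH

/-- any two different members `i, j` of the family have a nonzero integer `D ≤ M` divisible by all
the moduli `q` for which `c i q` and `c j q` are the same class prime to `q` -/
def Sep {ι : Type} (I : Finset ι) (c : ι → ℕ → ℕ) (P : Finset ℕ) (M : ℝ) : Prop :=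
  ∀ i ∈ I, ∀ j ∈ I, i ≠ j → ∃ D : ℕ, D ≠ 0 ∧ (D : ℝ) ≤ M ∧
    ∀ q ∈ P, (c i q).Coprime q → (c j q).Coprime q → c i q ≡ c j q [MOD q] → q ∣ D

lemma Sep.mono {ι : Type} {I : Finset ι} {c : ι → ℕ → ℕ} {P P' : Finset ℕ} {M M' : ℝ}
    (h : Sep I c P M) (hP : P' ⊆ P) (hM : M ≤ M') : Sep I c P' M' := by
  intro i hi j hj hij
  obtain ⟨D, h1, h2, h3⟩ := h i hi j hj hij
  exact ⟨D, h1, h2.trans hM, fun q hq => h3 q (hP hq)⟩

lemma count_partR {ι : Type} (k Q : ℕ) (P : Finset ℕ) (hP : P ⊆ Icc 1 Q)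
    (hk : ∀ q ∈ P, q.primeFactors.card ≤ k) (M : ℝ) (hM : 1 ≤ M) (I : Finset ι) (c : ι → ℕ → ℕ)
    (hS : Sep I c P M) :
    (enR I c P : ℝ) ≤
      I.card * Q + (I.card : ℝ) ^ 2 * (1 + 2 * Real.log M) ^ k := by
  classical
  have hlM := Real.log_nonneg hM
  set m : ℝ := (1 + 2 * Real.log M) ^ k with hm
  have hm0 : 0 ≤ m := by positivity
  have h1 : (enR I c P : ℝ) ≤ ∑ q ∈ P, ∑ p ∈ I ×ˢ I,
      (if (c p.1 q).Coprime q ∧ (c p.2 q).Coprime q ∧ c p.1 q ≡ c p.2 q [MOD q]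
        then (1:ℝ) else 0) := by
    unfold enR
    push_cast
    apply sum_le_sum
    intro q _
    rw [sum_boole]
    have h2 : (Iq I c q ×ˢ Iq I c q).filter (fun p => c p.1 q ≡ c p.2 q [MOD q]) ⊆
        (I ×ˢ I).filter (fun p => (c p.1 q).Coprime q ∧ (c p.2 q).Coprime q ∧
          c p.1 q ≡ c p.2 q [MOD q]) := by
      intro p hp
      unfold Iq at hp
      rw [mem_filter, mem_product, mem_filter, mem_filter] at hp
      rw [mem_filter, mem_product]
      exact ⟨⟨hp.1.1.1, hp.1.2.1⟩, hp.1.1.2, hp.1.2.2, hp.2⟩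
    exact_mod_cast card_le_card h2
  refine h1.trans ?_
  rw [sum_comm]
  have hc : (P.card : ℝ) ≤ Q := by
    have := card_le_card hP
    rw [Nat.card_Icc, Nat.add_sub_cancel] at this
    exact_mod_cast this
  calc ∑ p ∈ I ×ˢ I, ∑ q ∈ P, (if (c p.1 q).Coprime q ∧ (c p.2 q).Coprime q ∧
        c p.1 q ≡ c p.2 q [MOD q] then (1:ℝ) else 0) ≤
      ∑ p ∈ I ×ˢ I, ((if p.1 = p.2 then (Q:ℝ) else 0) + m) := by
        apply sum_le_sum
        intro p hp
        rw [mem_product] at hp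
        by_cases hij : p.1 = p.2
        · rw [if_pos hij]
          calc _ ≤ ∑ _q ∈ P, (1:ℝ) := by
                apply sum_le_sum
                intro q _
                split_ifs <;> norm_num
            _ = P.card := by simp
            _ ≤ _ := by linarith
        · rw [if_neg hij, zero_add, sum_boole]
          obtain ⟨D, hD0, hDM, hD⟩ := hS p.1 hp.1 p.2 hp.2 hij
          have hsub : P.filter (fun q => (c p.1 q).Coprime q ∧ (c p.2 q).Coprime q ∧
              c p.1 q ≡ c p.2 q [MOD q]) ⊆ Dk k D := by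
            intro q hq
            rw [mem_filter] at hq
            rw [mem_Dk]
            exact ⟨⟨hD q hq.1 hq.2.1 hq.2.2.1 hq.2.2.2, hD0⟩, hk q hq.1⟩
          have hD1 : (1:ℝ) ≤ D := by exact_mod_cast Nat.one_le_iff_ne_zero.2 hD0
          have hlD := Real.log_nonneg hD1
          calc (((P.filter (fun q => (c p.1 q).Coprime q ∧ (c p.2 q).Coprime q ∧
                c p.1 q ≡ c p.2 q [MOD q])).card : ℕ) : ℝ) ≤ ((Dk k D).card : ℝ) := by
                exact_mod_cast card_le_card hsub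
            _ ≤ (1 + 2 * Real.log D) ^ k := card_Dk' k D hD0
            _ ≤ m := by
                have := Real.log_le_log (by linarith) hDM
                rw [hm]
                gcongr
    _ = _ := by
        rw [sum_product]
        have h3 : ∀ i ∈ I, ∑ j ∈ I, ((if i = j then (Q:ℝ) else 0) + m) = Q + I.card * m := by
          intro i hi
          rw [sum_add_distrib, sum_ite_eq I i, if_pos hi, sum_const, nsmul_eq_mul]
        rw [sum_congr rfl h3, sum_const, nsmul_eq_mul]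
        ring

/-- separated families, moduli with at most `k` prime factors -/
theorem setsR (B : ℝ) (hB : 0 ≤ B) (U : ℕ) : ∃ C : ℝ, 0 < C ∧
    ∀ N : ℕ, 3 ≤ N → ∀ k Q : ℕ,
    ((2 * B + 1) * Real.log N) ^ k * Q * Real.log N ^ (8 * U + 24) ≤ N →
    ∀ P : Finset ℕ, P ⊆ Icc 1 Q → (∀ q ∈ P, q.primeFactors.card ≤ k) →
    ∀ (ι : Type) (I : Finset ι) (c : ι → ℕ → ℕ), Sep I c P ((N : ℝ) ^ B) →
    ∑ i ∈ I, ∑ q ∈ P.filter (fun q => (c i q).Coprime q), E N q (c i q) ≤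
      C * (I.card * (N / Real.log N ^ U) +
        Real.sqrt I.card * (Q * Real.sqrt N * Real.log N ^ (3 * (U + 4)))) := by
  obtain ⟨C1, hC10, hC1⟩ := famR U
  refine ⟨2 * C1, by positivity, fun N hN k Q hQ P hP hk ι I c hS => ?_⟩
  have hl1 := log_ge_one hN
  have hN1 : (1:ℝ) ≤ N := by
    have : 1 ≤ N := by omega
    exact_mod_cast this
  have hN0 : (0:ℝ) < N := by linarith
  have hl : 0 < Real.log N := by linarith
  have hQ0 : (0:ℝ) ≤ Q := Nat.cast_nonneg Q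
  set n : ℝ := (I.card : ℝ) with hn
  have hn0 : 0 ≤ n := Nat.cast_nonneg _
  set Λ := Real.log N with hΛ
  set m : ℝ := ((2 * B + 1) * Λ) ^ k with hm
  have hb : 1 ≤ (2 * B + 1) * Λ := by nlinarith
  have hm1 : 1 ≤ m := one_le_pow₀ hb
  have hQ2 : (Q : ℝ) * Λ ^ (U + 1) ≤ N := by
    calc (Q : ℝ) * Λ ^ (U + 1) ≤ Q * Λ ^ (8 * U + 24) :=
          mul_le_mul_of_nonneg_left (pow_le_pow_right₀ hl1 (by omega)) hQ0
      _ = 1 * Q * Λ ^ (8 * U + 24) := by ring
      _ ≤ m * Q * Λ ^ (8 * U + 24) := by gcongr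
      _ ≤ N := hQ
  have h1 := hC1 N hN Q hQ2 P hP ι I c
  have hB1 : (1:ℝ) ≤ (N:ℝ) ^ B := Real.one_le_rpow hN1 hB
  have h2 := count_partR k Q P hP hk ((N:ℝ) ^ B) hB1 I c hS
  have h3 : (enR I c P : ℝ) ≤ n * Q + n ^ 2 * m := by
    refine h2.trans ?_
    have h4 : 1 + 2 * Real.log ((N:ℝ) ^ B) ≤ (2 * B + 1) * Λ := by
      rw [Real.log_rpow hN0]
      nlinarith
    have h5 : 0 ≤ 1 + 2 * Real.log ((N:ℝ) ^ B) := by
      have := Real.log_nonneg hB1
      linarith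
    have h6 : (1 + 2 * Real.log ((N:ℝ) ^ B)) ^ k ≤ m := pow_le_pow_left₀ h5 h4 k
    gcongr
  set W : ℝ := Λ ^ (3 * (U + 4)) with hW
  have hW0 : 0 < W := by positivity
  set Pt : ℝ := Real.sqrt n * (Q * Real.sqrt N * W) with hPt
  have hP0 : 0 ≤ Pt := by positivity
  set u : ℝ := (N:ℝ) / Λ ^ U with hu
  have hu0 : 0 < u := by positivity
  have h4 : Real.sqrt (enR I c P * (Q * N)) * W ≤ Pt + n * u := by
    have e1 : (enR I c P : ℝ) * (Q * N) ≤
        n * ((Q:ℝ) ^ 2 * N) + n ^ 2 * (m * Q * N) := by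
      calc (enR I c P : ℝ) * (Q * N) ≤ (n * Q + n ^ 2 * m) * (Q * N) := by gcongr
        _ = _ := by ring
    have e2 : Real.sqrt (n * ((Q:ℝ) ^ 2 * N)) = Real.sqrt n * (Q * Real.sqrt N) := by
      rw [Real.sqrt_mul hn0, Real.sqrt_mul (by positivity : 0 ≤ (Q:ℝ) ^ 2),
        Real.sqrt_sq (Nat.cast_nonneg Q)]
    have e3 : Real.sqrt (n ^ 2 * (m * Q * N)) ≤ n * (N / Λ ^ (4 * U + 12)) := by
      have e4 : n ^ 2 * (m * Q * N) ≤ (n * (N / Λ ^ (4 * U + 12))) ^ 2 := by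
        have e5 : m * Q * N ≤ (N / Λ ^ (4 * U + 12)) ^ 2 := by
          rw [div_pow, le_div_iff₀ (by positivity), ← pow_mul]
          calc m * Q * N * Λ ^ ((4 * U + 12) * 2) = (m * Q * Λ ^ (8 * U + 24)) * N := by
                rw [show (4 * U + 12) * 2 = 8 * U + 24 from by ring]
                ring
            _ ≤ N * N := by gcongr
            _ = _ := by ring
        calc n ^ 2 * (m * Q * N) ≤ n ^ 2 * (N / Λ ^ (4 * U + 12)) ^ 2 := by gcongr
          _ = _ := by ring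
      refine (Real.sqrt_le_sqrt e4).trans ?_
      rw [Real.sqrt_sq (by positivity)]
    have e6 : N / Λ ^ (4 * U + 12) * W = u := by
      rw [hW, hu, div_mul_eq_mul_div, div_eq_div_iff (by positivity) (by positivity)]
      rw [mul_assoc, ← pow_add]
      congr 2
      ring
    calc Real.sqrt (enR I c P * (Q * N)) * W
        ≤ (Real.sqrt (n * ((Q:ℝ) ^ 2 * N)) + Real.sqrt (n ^ 2 * (m * Q * N))) * W := by
          apply mul_le_mul_of_nonneg_right _ hW0.le
          refine (Real.sqrt_le_sqrt e1).trans ?_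
          exact sqrt_add_le' (by positivity) (by positivity)
      _ ≤ (Real.sqrt n * (Q * Real.sqrt N) + n * (N / Λ ^ (4 * U + 12))) * W := by
          rw [e2]
          gcongr
      _ = Pt + n * (N / Λ ^ (4 * U + 12) * W) := by
          rw [hPt]; ring
      _ = _ := by rw [e6]
  calc _ ≤ C1 * (n * u + Real.sqrt (enR I c P * (Q * N)) * W) := h1
    _ ≤ C1 * (n * u + (Pt + n * u)) := by gcongr
    _ ≤ C1 * (n * u + (Pt + n * u)) + C1 * Pt := by linarith [mul_nonneg hC10.le hP0]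
    _ = _ := by ring

/-- **few bad members** -/
theorem few_badR (B : ℝ) (hB : 0 ≤ B) (U : ℕ) : ∃ C : ℝ, 0 < C ∧ ∃ N0 : ℕ,
    ∀ N : ℕ, N0 ≤ N → 3 ≤ N → ∀ k Q : ℕ,
    ((2 * B + 1) * Real.log N) ^ k * Q * Real.log N ^ (8 * (U + 1) + 24) ≤ N →
    ∀ P : Finset ℕ, P ⊆ Icc 1 Q → (∀ q ∈ P, q.primeFactors.card ≤ k) →
    ∀ (ι : Type) (I : Finset ι) (c : ι → ℕ → ℕ), Sep I c P ((N : ℝ) ^ B) → (∀ i ∈ I,
      N / Real.log N ^ U < ∑ q ∈ P.filter (fun q => (c i q).Coprime q), E N q (c i q)) →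
    (I.card : ℝ) ≤ C * Real.log N ^ (2 * U + 6 * (U + 5)) * ((Q : ℝ) ^ 2 / N) := by
  obtain ⟨C1, hC10, hC1⟩ := setsR B hB (U + 1)
  set N0 : ℕ := ⌈Real.exp (2 * C1)⌉₊ with hN0d
  refine ⟨4 * C1 ^ 2, by positivity, N0, fun N hNN hN k Q hQ P hP hk ι I c hS hI => ?_⟩
  have hl1 := log_ge_one hN
  have hN1 : (1:ℝ) ≤ N := by
    have : 1 ≤ N := by omega
    exact_mod_cast this
  have hN0 : (0:ℝ) < N := by linarith
  have hl : 0 < Real.log N := by linarith
  set M : ℝ := Real.log N ^ (2 * U + 6 * (U + 5)) with hM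
  have hM1 : 1 ≤ M := one_le_pow₀ hl1
  rcases I.eq_empty_or_nonempty with hIe | ⟨i0, hi0⟩
  · rw [hIe]
    simp only [card_empty, Nat.cast_zero]
    positivity
  set Λ := Real.log N with hΛ
  have hΛ1 : 2 * C1 ≤ Λ := by
    rw [hΛ, Real.le_log_iff_exp_le hN0]
    calc Real.exp (2 * C1) ≤ (N0 : ℝ) := Nat.le_ceil _
      _ ≤ N := by exact_mod_cast hNN
  have h1 := hC1 N hN k Q hQ P hP hk ι I c hS
  set n : ℝ := (I.card : ℝ) with hn
  have hn1 : (1:ℝ) ≤ n := by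
    have h0 : 1 ≤ I.card := Finset.card_pos.2 ⟨i0, hi0⟩
    rw [hn]
    exact_mod_cast h0
  have h2 : n * (N / Λ ^ U) ≤
      ∑ i ∈ I, ∑ q ∈ P.filter (fun q => (c i q).Coprime q), E N q (c i q) := by
    rw [← nsmul_eq_mul, ← sum_const]
    apply sum_le_sum
    intro i hi
    exact (hI i hi).le
  set s : ℝ := Real.sqrt n with hs
  have hs2 : s * s = n := Real.mul_self_sqrt (by linarith)
  have hs0 : 0 < s := Real.sqrt_pos.2 (by linarith)
  set t : ℝ := (Q:ℝ) * Real.sqrt N * Λ ^ (3 * (U + 1 + 4)) with ht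
  have ht0 : 0 ≤ t := by positivity
  have h3 : C1 * (n * (N / Λ ^ (U + 1))) ≤ (1 / 2) * (n * (N / Λ ^ U)) := by
    have e1 : C1 * (n * (N / Λ ^ (U + 1))) = (C1 / Λ) * (n * (N / Λ ^ U)) := by
      rw [pow_succ]
      field_simp
    rw [e1]
    apply mul_le_mul_of_nonneg_right _ (by positivity)
    rw [div_le_div_iff₀ hl (by norm_num)]
    linarith
  have h4 : n * (N / Λ ^ U) ≤ 2 * C1 * (s * t) := by
    have : n * (N / Λ ^ U) ≤ C1 * (n * (N / Λ ^ (U + 1)) + s * t) := h2.trans h1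
    linarith
  have h5 : s * N ≤ 2 * C1 * t * Λ ^ U := by
    have e1 : n * (N / Λ ^ U) = s * (s * N / Λ ^ U) := by
      rw [← hs2]; ring
    have e2 : 2 * C1 * (s * t) = s * (2 * C1 * t) := by ring
    rw [e1, e2] at h4
    have h6 := le_of_mul_le_mul_left h4 hs0
    rw [div_le_iff₀ (by positivity)] at h6
    exact h6
  have hsN : Real.sqrt (N:ℝ) ^ 2 = (N:ℝ) := Real.sq_sqrt hN0.le
  have h6 : n * (N:ℝ) ^ 2 ≤ (4 * C1 ^ 2 * (M * ((Q : ℝ) ^ 2 / N))) * (N:ℝ) ^ 2 := by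
    have e1 : n * (N:ℝ) ^ 2 = (s * N) ^ 2 := by rw [← hs2]; ring
    rw [e1]
    calc (s * N) ^ 2 ≤ (2 * C1 * t * Λ ^ U) ^ 2 := by
          apply pow_le_pow_left₀ (by positivity) h5
      _ = 4 * C1 ^ 2 * ((Q:ℝ) ^ 2 * Real.sqrt N ^ 2 * (Λ ^ (3 * (U + 1 + 4)) * Λ ^ U) ^ 2) := by
          rw [ht]
          ring
      _ = 4 * C1 ^ 2 * ((Q:ℝ) ^ 2 * N * M) := by
          rw [hsN, hM, ← pow_add, ← pow_mul]
          congr 4
          ring
      _ = _ := by field_simp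
  have h9 := le_of_mul_le_mul_right h6 (by positivity)
  calc n ≤ 4 * C1 ^ 2 * (M * ((Q : ℝ) ^ 2 / N)) := h9
    _ = _ := by ring

end Pool.Agent.TH926.FFR
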