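import Pool.Agent.TH926.FFR.Lower

/-!
The least primes in the residue classes of few fixed integers.
-/

set_option autoImplicit false

open Finset Filter

namespace Pool.Agent.TH926.FFR

open Pool.Agent.TH926.EH

/-- some prime `p ≤ y` is in the class of `a` modulo `q` -/
def HasP (a q : ℕ) (y : ℝ) : Prop := ∃ p : ℕ, p.Prime ∧ p ≡ a [MOD q] ∧ (p : ℝ) ≤ y

lemma ev_large (T : ℝ) (c : ℕ) : ∃ Q0 : ℕ, ∀ Q : ℕ, Q0 ≤ Q →
    3 ≤ Q ∧ T ≤ Real.log Q ∧ Real.log Q ^ c ≤ Q := by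
  have e1 : ∀ᶠ X : ℝ in atTop, 1 * Real.log X ^ c ≤ X ^ (1:ℝ) :=
    Pool.Agent.H398R2.BV.ev_log 1 c 1 one_pos
  have e2 : ∀ᶠ X : ℝ in atTop, T ≤ Real.log X := Real.tendsto_log_atTop.eventually_ge_atTop T
  have e3 := tendsto_natCast_atTop_atTop (R := ℝ) |>.eventually (e1.and e2)
  obtain ⟨Q0, h⟩ := eventually_atTop.1 (e3.and (eventually_ge_atTop 3))
  refine ⟨Q0, fun Q hQ => ?_⟩
  obtain ⟨⟨h1, h2⟩, h3⟩ := h Q hQ
  rw [one_mul, Real.rpow_one] at h1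
  exact ⟨h3, h2, h1⟩

theorem least_y (B : ℝ) (hB : 0 ≤ B) (V : ℕ) : ∃ C : ℕ, 1 ≤ C ∧ ∃ Q0 : ℕ, ∀ Q : ℕ, Q0 ≤ Q →
    ∀ y : ℝ, 1 ≤ y → y ≤ Q → ∀ (ι : Type) (I : Finset ι) (c : ι → ℕ → ℕ),
    Sep I c (Icc 1 Q) ((Q:ℝ) ^ B) →
    (∀ i ∈ I, ∃ T : Finset ℕ, Q / Real.log Q ^ V < T.card ∧
      ∀ q ∈ T, q ∈ Icc 1 Q ∧ (c i q).Coprime q ∧
        ((C:ℝ) * Real.log Q) ^ q.primeFactors.card ≤ y ∧
        ¬ HasP (c i q) q (Q * y * Real.log Q ^ C)) →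
    (I.card : ℝ) ≤ Q / (y * Real.log Q ^ V) := by
  classical
  obtain ⟨C1, hC10, N0, hC1⟩ := few_badR B hB (V + 1 + 1)
  set e1 : ℕ := 8 * (V + 1 + 1 + 1) + 24 with he1
  set e2 : ℕ := 2 * (V + 1 + 1) + 6 * (V + 1 + 1 + 5) with he2
  set c0 : ℕ := e1 + e2 + V + 1 with hc
  set C : ℕ := ⌈3 * (2 * B + 1)⌉₊ + c0 with hC
  have hCB : 3 * (2 * B + 1) ≤ C := by
    calc 3 * (2 * B + 1) ≤ (⌈3 * (2 * B + 1)⌉₊ : ℝ) := Nat.le_ceil _
      _ ≤ C := by exact_mod_cast Nat.le_add_right _ _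
  have hcC : c0 ≤ C := Nat.le_add_left _ _
  obtain ⟨Q0, hQ0⟩ := ev_large (8 + 2 * 3 ^ e1 + 2 * C1 * 3 ^ e2) c0
  refine ⟨C, by omega, max Q0 N0, fun Q hQ y hy1 hyQ ι I c hS hI => ?_⟩
  obtain ⟨hQ3, hT, hlc⟩ := hQ0 Q ((le_max_left _ _).trans hQ)
  set ℓ := Real.log Q with hℓ
  have p1 : (0:ℝ) < 2 * 3 ^ e1 := by positivity
  have p2 : (0:ℝ) < 2 * C1 * 3 ^ e2 := by positivity
  have hl8 : 8 ≤ ℓ := by linarith
  have hle1 : 2 * 3 ^ e1 ≤ ℓ := by linarith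
  have hle2 : 2 * C1 * 3 ^ e2 ≤ ℓ := by linarith
  have hl0 : 0 < ℓ := by linarith
  have hl1 : 1 ≤ ℓ := by linarith
  have hQ1 : (1:ℝ) ≤ Q := by
    have : 1 ≤ Q := by omega
    exact_mod_cast this
  have hQ3' : (3:ℝ) ≤ Q := by exact_mod_cast hQ3
  have hQp : (0:ℝ) < Q := by linarith
  have hy0 : 0 < y := by linarith
  set X : ℝ := Q * y * ℓ ^ c0 with hX
  have hlc1 : 1 ≤ ℓ ^ c0 := one_le_pow₀ hl1
  have hXQ : (Q:ℝ) ≤ X := by
    calc (Q:ℝ) = Q * 1 * 1 := by ring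
      _ ≤ Q * y * ℓ ^ c0 := by gcongr
  have hX0 : 0 < X := by linarith
  have hX3 : X ≤ (Q:ℝ) ^ 3 := by
    calc X ≤ Q * Q * Q := by
          rw [hX]
          gcongr
      _ = _ := by ring
  set N : ℕ := ⌊X⌋₊ with hN
  have hNX : (N:ℝ) ≤ X := Nat.floor_le hX0.le
  have hQN : Q ≤ N := Nat.le_floor hXQ
  have hQN' : (Q:ℝ) ≤ N := by exact_mod_cast hQN
  have hN0 : (0:ℝ) < N := by linarith
  have hXN : X ≤ 2 * N := by
    have := Nat.lt_floor_add_one X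
    rw [← hN] at this
    linarith
  have hN3 : 3 ≤ N := by omega
  set L := Real.log N with hL
  have hL1 : ℓ ≤ L := Real.log_le_log hQp hQN'
  have hL0 : 0 < L := by linarith
  have hL2 : L ≤ 3 * ℓ := by
    calc L ≤ Real.log X := Real.log_le_log hN0 hNX
      _ ≤ Real.log ((Q:ℝ) ^ 3) := Real.log_le_log hX0 hX3
      _ = 3 * ℓ := by
          rw [Real.log_pow, ← hℓ]
          norm_num
  -- the moduli
  set P : Finset ℕ := (Icc 1 Q).filter (fun q => ((C:ℝ) * ℓ) ^ q.primeFactors.card ≤ y) with hP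
  have hPQ : P ⊆ Icc 1 Q := filter_subset _ _
  set k : ℕ := P.sup (fun q => q.primeFactors.card) with hk
  have hPk : ∀ q ∈ P, q.primeFactors.card ≤ k := fun q hq =>
    Finset.le_sup (f := fun q : ℕ => q.primeFactors.card) hq
  have hky : ((2 * B + 1) * L) ^ k ≤ y := by
    rcases P.eq_empty_or_nonempty with h | h
    · rw [hk, h, sup_empty]
      simpa using hy1
    · obtain ⟨q0, hq0, hq1⟩ := Finset.exists_mem_eq_sup P h (fun q => q.primeFactors.card)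
      rw [← hk] at hq1
      have h2 := (mem_filter.1 hq0).2
      rw [← hq1] at h2
      refine le_trans ?_ h2
      apply pow_le_pow_left₀ (by positivity)
      calc (2 * B + 1) * L ≤ (2 * B + 1) * (3 * ℓ) := by gcongr
        _ = 3 * (2 * B + 1) * ℓ := by ring
        _ ≤ C * ℓ := by gcongr
  have hcond : ((2 * B + 1) * L) ^ k * Q * L ^ e1 ≤ N := by
    have h1 : ((2 * B + 1) * L) ^ k * Q * L ^ e1 ≤ y * Q * (3 * ℓ) ^ e1 := by gcongr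
    have h2 : 2 * (y * Q * (3 * ℓ) ^ e1) ≤ X := by
      calc 2 * (y * Q * (3 * ℓ) ^ e1) = (2 * 3 ^ e1) * (y * Q * ℓ ^ e1) := by
            rw [mul_pow]; ring
        _ ≤ ℓ * (y * Q * ℓ ^ e1) := by gcongr
        _ = Q * y * ℓ ^ (e1 + 1) := by ring
        _ ≤ Q * y * ℓ ^ c0 := by
            apply mul_le_mul_of_nonneg_left _ (by positivity)
            exact pow_le_pow_right₀ hl1 (by omega)
    linarith
  have key := hC1 N (((le_max_right _ _).trans hQ).trans hQN) hN3 k Q hcond P hPQ hPk ι I c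
      (hS.mono hPQ (Real.rpow_le_rpow hQp.le hQN' hB)) (by
    intro i hi
    obtain ⟨T, hTc, hTq⟩ := hI i hi
    by_contra hcon
    rw [not_lt] at hcon
    have h1 := no_prime N hN3 Q (V + 1) (c i) P hPQ hcon T (by
      intro q hq
      obtain ⟨t1, t2, t3, t4⟩ := hTq q hq
      refine ⟨mem_filter.2 ⟨t1, t3⟩, t2, fun p hp hpa hpN => t4 ⟨p, hp, hpa, ?_⟩⟩
      calc (p:ℝ) ≤ N := by exact_mod_cast hpN
        _ ≤ X := hNX
        _ ≤ Q * y * ℓ ^ C := by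
            apply mul_le_mul_of_nonneg_left _ (by positivity)
            exact pow_le_pow_right₀ hl1 hcC)
    have h2 : 8 * (Q:ℝ) / L ^ (V + 1) ≤ Q / ℓ ^ V := by
      rw [div_le_div_iff₀ (by positivity) (by positivity)]
      calc 8 * (Q:ℝ) * ℓ ^ V ≤ ℓ * Q * ℓ ^ V := by gcongr
        _ = Q * ℓ ^ (V + 1) := by ring
        _ ≤ Q * L ^ (V + 1) := by gcongr
    linarith)
  refine key.trans ?_
  have h3 : C1 * L ^ e2 * ((Q:ℝ) ^ 2 / N) ≤ C1 * (3 * ℓ) ^ e2 * ((Q:ℝ) ^ 2 / (X / 2)) := by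
    gcongr
    linarith
  refine h3.trans ?_
  rw [mul_div_assoc', div_le_div_iff₀ (by positivity) (by positivity)]
  calc C1 * (3 * ℓ) ^ e2 * (Q:ℝ) ^ 2 * (y * ℓ ^ V) =
      (2 * C1 * 3 ^ e2) * (ℓ ^ e2 * ℓ ^ V * ((Q:ℝ) ^ 2 * y / 2)) := by
        rw [mul_pow]; ring
    _ ≤ ℓ * (ℓ ^ e2 * ℓ ^ V * ((Q:ℝ) ^ 2 * y / 2)) := by gcongr
    _ = ℓ ^ (e2 + V + 1) * ((Q:ℝ) ^ 2 * y / 2) := by ring
    _ ≤ ℓ ^ c0 * ((Q:ℝ) ^ 2 * y / 2) := by
        apply mul_le_mul_of_nonneg_right _ (by positivity)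
        exact pow_le_pow_right₀ hl1 (by omega)
    _ = Q * (X / 2) := by rw [hX]; ring

end Pool.Agent.TH926.FFR
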