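import Pool.Agent.TH926.FFR.Few

/-!
The moduli without small primes in the class.
-/

set_option autoImplicit false

open Finset Filter

namespace Pool.Agent.TH926.FFR

open Pool.Agent.TH926.EH
open Pool.Agent.H442R2.EHI (piAP)

lemma pc_lower (N : ℕ) (hN : 3 ≤ N) : (N:ℝ) / (8 * Real.log N) ≤ pc N := by
  have hl1 := log_ge_one hN
  have hN3 : (3:ℝ) ≤ N := by exact_mod_cast hN
  have h1 := Chebyshev.psi_ge N
  have h2 := Chebyshev.psi_le_primeCounting_mul_log N
  have h3 : (Nat.primeCounting N : ℝ) = pc N := by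
    unfold pc
    rw [← Nat.primesLE_card_eq_primeCounting]
    congr 2
    ext p
    rw [Nat.mem_primesLE, mem_filter, mem_Icc]
    constructor
    · rintro ⟨h, hp⟩
      exact ⟨⟨hp.one_lt.le, h⟩, hp⟩
    · rintro ⟨⟨_, h⟩, hp⟩
      exact ⟨h, hp⟩
  rw [h3] at h2
  have h4 : Real.log ((N:ℝ) + 1) ≤ (N:ℝ) / 4 + 0.637 := by
    have h5 : Real.log (((N:ℝ) + 1) / 4) ≤ ((N:ℝ) + 1) / 4 - 1 :=
      Real.log_le_sub_one_of_pos (by positivity)
    rw [Real.log_div (by positivity) (by norm_num)] at h5
    have h6 : Real.log 4 = 2 * Real.log 2 := by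
      rw [show (4:ℝ) = 2 ^ 2 from by norm_num, Real.log_pow]
      norm_num
    have h7 := Real.log_two_lt_d9
    linarith
  have h8 := Real.log_two_gt_d9
  rw [div_le_iff₀ (by positivity)]
  nlinarith

/-- few moduli without a prime -/
lemma no_prime (N : ℕ) (hN : 3 ≤ N) (Q U : ℕ) (a : ℕ → ℕ) (P : Finset ℕ) (hP : P ⊆ Icc 1 Q)
    (h : ∑ q ∈ P.filter (fun q => (a q).Coprime q), E N q (a q) ≤ N / Real.log N ^ (U + 1))
    (T : Finset ℕ) (hT : ∀ q ∈ T, q ∈ P ∧ (a q).Coprime q ∧
      ∀ p : ℕ, p.Prime → p ≡ a q [MOD q] → ¬ p ≤ N) :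
    (T.card : ℝ) ≤ 8 * Q / Real.log N ^ U := by
  classical
  have hl1 := log_ge_one hN
  have hl : 0 < Real.log N := by linarith
  have hN0 : (0:ℝ) < N := by
    have : 0 < N := by omega
    exact_mod_cast this
  rcases Nat.eq_zero_or_pos Q with hQ | hQ
  · have : T = ∅ := by
      rw [eq_empty_iff_forall_notMem]
      intro q hq
      have h1 := mem_Icc.1 (hP (hT q hq).1)
      omega
    rw [this, card_empty, Nat.cast_zero]
    positivity
  have hQ0 : (0:ℝ) < Q := by exact_mod_cast hQ
  have h1 : (T.card : ℝ) * (N / (8 * Real.log N) / Q) ≤ N / Real.log N ^ (U + 1) := by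
    refine le_trans ?_ h
    rw [← nsmul_eq_mul, ← sum_const]
    calc ∑ q ∈ T, (N / (8 * Real.log N) / Q : ℝ) ≤ ∑ q ∈ T, E N q (a q) := by
          apply sum_le_sum
          intro q hq
          obtain ⟨h2, h3, h4⟩ := hT q hq
          have h5 := mem_Icc.1 (hP h2)
          have h6 : piAP N q (a q) = 0 := by
            unfold piAP
            rw [Nat.cast_eq_zero, card_eq_zero, filter_eq_empty_iff]
            intro p hp h7
            exact h4 p h7.1 h7.2 (mem_Icc.1 hp).2
          have h8 : 0 ≤ pc N := Nat.cast_nonneg _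
          have h9 : (0:ℝ) < Nat.totient q := by
            exact_mod_cast Nat.totient_pos.2 (by omega)
          have h10 : (Nat.totient q : ℝ) ≤ Q := by
            exact_mod_cast (Nat.totient_le q).trans h5.2
          unfold E
          rw [h6, zero_sub, abs_neg, abs_of_nonneg (by positivity)]
          calc (N:ℝ) / (8 * Real.log N) / Q ≤ pc N / Q := by
                gcongr
                exact pc_lower N hN
            _ ≤ pc N / Nat.totient q := by gcongr
      _ ≤ ∑ q ∈ P.filter (fun q => (a q).Coprime q), E N q (a q) := by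
          apply sum_le_sum_of_subset_of_nonneg
          · intro q hq
            rw [mem_filter]
            exact ⟨(hT q hq).1, (hT q hq).2.1⟩
          · intro q _ _
            exact E_nonneg N q (a q)
  have h2 : (T.card : ℝ) * (N / (8 * Real.log N) / Q) = (T.card / (8 * Q)) * (N / Real.log N) := by
    field_simp
  have h3 : (N:ℝ) / Real.log N ^ (U + 1) = (1 / Real.log N ^ U) * (N / Real.log N) := by
    rw [pow_succ]
    field_simp
  rw [h2, h3] at h1
  have h4 := le_of_mul_le_mul_right h1 (by positivity)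
  rw [div_le_iff₀ (by positivity)] at h4
  calc (T.card : ℝ) ≤ 1 / Real.log N ^ U * (8 * Q) := h4
    _ = _ := by ring

end Pool.Agent.TH926.FFR
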