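import Pool.Agent.TH926.FFR.Cor

/-!
The classes of the rational numbers.
-/

set_option autoImplicit false

open Finset Filter

namespace Pool.Agent.TH926.FFR

/-- the class of `r` modulo `q` (zero if `q` is not prime to the denominator) -/
noncomputable def cls (r : ℚ) (q : ℕ) : ℕ :=
  if r.den.Coprime q then ((r.num : ZMod q) * (r.den : ZMod q)⁻¹).val else 0

lemma cls_cast {r : ℚ} {q : ℕ} (hq : 1 ≤ q) (h : r.den.Coprime q) :
    ((cls r q : ℕ) : ZMod q) = (r.num : ZMod q) * (r.den : ZMod q)⁻¹ := by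
  haveI : NeZero q := ⟨by omega⟩
  unfold cls
  rw [if_pos h, ZMod.natCast_zmod_val]

lemma den_mul {r : ℚ} {q : ℕ} (hq : 1 ≤ q) (h : r.den.Coprime q) :
    (r.den : ZMod q) * ((cls r q : ℕ) : ZMod q) = (r.num : ZMod q) := by
  rw [cls_cast hq h, mul_comm (r.num : ZMod q), ← mul_assoc, ZMod.coe_mul_inv_eq_one _ h, one_mul]

lemma den_coprime {r : ℚ} {q : ℕ} (hq : 2 ≤ q) (h : (cls r q).Coprime q) : r.den.Coprime q := by
  by_contra hcon
  unfold cls at h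
  rw [if_neg hcon, Nat.coprime_zero_left] at h
  omega

lemma sep_rat (I : Finset ℚ) (Q : ℕ) (M : ℝ)
    (hI : ∀ r ∈ I, ∀ s ∈ I, (|r.num * s.den - s.num * r.den| : ℝ) ≤ M) :
    Sep I cls (Icc 1 Q) M := by
  intro r hr s hs hrs
  refine ⟨(r.num * s.den - s.num * r.den).natAbs, ?_, ?_, ?_⟩
  · rw [Int.natAbs_ne_zero, sub_ne_zero]
    intro h
    exact hrs (Rat.eq_iff_mul_eq_mul.2 h)
  · have := hI r hr s hs
    rw [Nat.cast_natAbs]
    push_cast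
    exact this
  · intro q hq h1 h2 h3
    rw [mem_Icc] at hq
    rcases Nat.lt_or_ge q 2 with h | h
    · have : q = 1 := by omega
      rw [this]
      exact one_dvd _
    · have d1 := den_coprime h h1
      have d2 := den_coprime h h2
      have e1 := den_mul (by omega) d1
      have e2 := den_mul (by omega) d2
      have e3 : ((cls r q : ℕ) : ZMod q) = ((cls s q : ℕ) : ZMod q) :=
        (ZMod.natCast_eq_natCast_iff _ _ _).2 h3
      rw [← Int.natCast_dvd, ← ZMod.intCast_zmod_eq_zero_iff_dvd]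
      push_cast
      rw [← e1, ← e2, e3]
      ring

lemma cls_coprime {r : ℚ} {q : ℕ} (hq : 1 ≤ q) (h : (r.num.natAbs * r.den).Coprime q) :
    (cls r q).Coprime q := by
  have h1 : r.num.natAbs.Coprime q := Nat.Coprime.coprime_mul_right h
  have h2 : r.den.Coprime q := Nat.Coprime.coprime_mul_left h
  have h3 : IsUnit ((r.num : ℤ) : ZMod q) := by
    have h4 : IsUnit ((r.num.natAbs : ℕ) : ZMod q) := (ZMod.isUnit_iff_coprime _ _).2 h1
    rcases Int.natAbs_eq r.num with h5 | h5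
    · rw [h5]
      push_cast
      simpa using h4
    · rw [h5]
      push_cast
      simpa using h4
  rw [← ZMod.isUnit_iff_coprime]
  have h6 := den_mul hq h2
  rw [← h6] at h3
  exact isUnit_of_mul_isUnit_right h3

lemma hasP_cls {r : ℚ} {q : ℕ} (hq : 1 ≤ q) (h : r.den.Coprime q) {p : ℕ}
    (hp : p ≡ cls r q [MOD q]) : (r.den * p : ℤ) ≡ r.num [ZMOD q] := by
  rw [← ZMod.intCast_eq_intCast_iff]
  push_cast
  rw [(ZMod.natCast_eq_natCast_iff _ _ _).2 hp, den_mul hq h]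

/-- the heights -/
lemma height_bound {B : ℝ} (hB : 0 ≤ B) {Q : ℕ} (hQ : 2 ≤ Q) {r s : ℚ}
    (h1 : |(r.num : ℝ)| ≤ (Q:ℝ) ^ B) (h2 : (r.den : ℝ) ≤ (Q:ℝ) ^ B)
    (h3 : |(s.num : ℝ)| ≤ (Q:ℝ) ^ B) (h4 : (s.den : ℝ) ≤ (Q:ℝ) ^ B) :
    (|r.num * s.den - s.num * r.den| : ℝ) ≤ (Q:ℝ) ^ (2 * B + 1) := by
  have hQ2 : (2:ℝ) ≤ Q := by exact_mod_cast hQ
  have hQ0 : (0:ℝ) < Q := by linarith
  have e1 : (Q:ℝ) ^ (2 * B + 1) = Q * ((Q:ℝ) ^ B * (Q:ℝ) ^ B) := by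
    rw [Real.rpow_add hQ0, Real.rpow_one, two_mul, Real.rpow_add hQ0]
    ring
  have hd1 : (0:ℝ) ≤ r.den := Nat.cast_nonneg _
  have hd2 : (0:ℝ) ≤ s.den := Nat.cast_nonneg _
  have hB0 : 0 ≤ (Q:ℝ) ^ B := by positivity
  calc (|r.num * s.den - s.num * r.den| : ℝ) ≤ |(r.num * s.den : ℝ)| + |(s.num * r.den : ℝ)| :=
        abs_sub _ _
    _ = |(r.num : ℝ)| * s.den + |(s.num : ℝ)| * r.den := by
        rw [abs_mul, abs_mul, abs_of_nonneg hd1, abs_of_nonneg hd2]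
    _ ≤ (Q:ℝ) ^ B * (Q:ℝ) ^ B + (Q:ℝ) ^ B * (Q:ℝ) ^ B := by gcongr
    _ = 2 * ((Q:ℝ) ^ B * (Q:ℝ) ^ B) := by ring
    _ ≤ Q * ((Q:ℝ) ^ B * (Q:ℝ) ^ B) := by gcongr
    _ = _ := e1.symm

end Pool.Agent.TH926.FFR
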