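import Pool.Agent.TH926.EH.LgFam

/-!
Families of residue systems, moduli in a given set.
-/

set_option autoImplicit false

open Finset Filter

namespace Pool.Agent.TH926.FFR

open Pool.Agent.Helper112 Pool.Agent.TH926.EH

/-- the members whose class is prime to the modulus -/
def Iq {ι : Type} (I : Finset ι) (c : ι → ℕ → ℕ) (q : ℕ) : Finset ι :=
  I.filter (fun i => (c i q).Coprime q)

/-- the number of the coincidences -/
noncomputable def enR {ι : Type} (I : Finset ι) (c : ι → ℕ → ℕ) (P : Finset ℕ) : ℕ :=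
  ∑ q ∈ P, ((Iq I c q ×ˢ Iq I c q).filter (fun p => c p.1 q ≡ c p.2 q [MOD q])).card

lemma enR_eq {ι : Type} (I : Finset ι) (c : ι → ℕ → ℕ) (P : Finset ℕ) :
    (enR I c P : ℝ) = ∑ q ∈ P, ∑ i ∈ Iq I c q, muF (Iq I c q) c q (c i q % q) := by
  unfold enR
  push_cast
  apply sum_congr rfl
  intro q _
  rw [card_filter, Nat.cast_sum, sum_product_right]
  apply sum_congr rfl
  intro i _
  unfold muF
  rw [card_filter, Nat.cast_sum]
  apply sum_congr rfl
  intro j _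
  rfl

/-- Cauchy-Schwarz -/
lemma cs_partR {ι : Type} (I : Finset ι) (c : ι → ℕ → ℕ) (Q : ℕ) (P : Finset ℕ)
    (hP : P ⊆ Icc 1 Q) (g : ℕ → ℕ → ℝ) :
    ∑ i ∈ I, ∑ q ∈ P.filter (fun q => (c i q).Coprime q), g q (c i q % q) ≤
      Real.sqrt (enR I c P) * Real.sqrt (∑ q ∈ Icc 1 Q, ∑ r ∈ range q, g q r ^ 2) := by
  have h0 : ∑ i ∈ I, ∑ q ∈ P.filter (fun q => (c i q).Coprime q), g q (c i q % q) =
      ∑ q ∈ P, ∑ i ∈ Iq I c q, g q (c i q % q) := by
    unfold Iq
    simp only [sum_filter]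
    exact sum_comm
  rw [h0, enR_eq]
  have h1 : ∑ q ∈ P, ∑ i ∈ Iq I c q, g q (c i q % q) =
      ∑ p ∈ P.sigma (fun q => range q), muF (Iq I c p.1) c p.1 p.2 * g p.1 p.2 := by
    rw [sum_sigma]
    apply sum_congr rfl
    intro q hq
    exact sum_modF (Iq I c q) c q (mem_Icc.1 (hP hq)).1 (g q)
  have h2 : ∑ q ∈ P, ∑ i ∈ Iq I c q, muF (Iq I c q) c q (c i q % q) =
      ∑ p ∈ P.sigma (fun q => range q), muF (Iq I c p.1) c p.1 p.2 ^ 2 := by
    rw [sum_sigma]
    apply sum_congr rfl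
    intro q hq
    rw [sum_modF (Iq I c q) c q (mem_Icc.1 (hP hq)).1 (muF (Iq I c q) c q)]
    apply sum_congr rfl
    intro r _
    rw [sq]
  have h3 : ∑ p ∈ P.sigma (fun q => range q), g p.1 p.2 ^ 2 ≤
      ∑ q ∈ Icc 1 Q, ∑ r ∈ range q, g q r ^ 2 := by
    rw [sum_sigma]
    exact sum_le_sum_of_subset_of_nonneg hP fun q _ _ => sum_nonneg fun r _ => sq_nonneg _
  rw [h1, h2]
  refine (Real.sum_mul_le_sqrt_mul_sqrt _ _ _).trans ?_
  exact mul_le_mul_of_nonneg_left (Real.sqrt_le_sqrt h3) (Real.sqrt_nonneg _)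

/-- **arbitrary families of residue systems** -/
theorem famR (U : ℕ) : ∃ C : ℝ, 0 < C ∧
    ∀ N : ℕ, 3 ≤ N → ∀ Q : ℕ, (Q : ℝ) * Real.log N ^ (U + 1) ≤ N →
    ∀ P : Finset ℕ, P ⊆ Icc 1 Q →
    ∀ (ι : Type) (I : Finset ι) (c : ι → ℕ → ℕ),
    ∑ i ∈ I, ∑ q ∈ P.filter (fun q => (c i q).Coprime q), E N q (c i q) ≤
      C * (I.card * (N / Real.log N ^ U) +
        Real.sqrt (enR I c P * (Q * N)) * Real.log N ^ (3 * (U + 4))) := by
  obtain ⟨C1, hC10, hC1⟩ := low_total2' U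
  refine ⟨C1 + 40, by positivity, fun N hN Q hQ P hP ι I c => ?_⟩
  have hl1 := log_ge_one hN
  have hN1 : (1:ℝ) ≤ N := by
    have : 1 ≤ N := by omega
    exact_mod_cast this
  have hN0 : (0:ℝ) < N := by linarith
  have hl : 0 < Real.log N := by linarith
  set Λ := Real.log N with hΛ
  set u : ℝ := (N:ℝ) / Λ ^ U with hu
  have hu0 : 0 < u := by positivity
  set n : ℝ := (I.card : ℝ) with hn
  have hn0 : 0 ≤ n := Nat.cast_nonneg _
  rcases Nat.eq_zero_or_pos Q with hQ0 | hQ1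
  · subst hQ0
    have hPe : P = ∅ := by
      have h0 : (Icc 1 0 : Finset ℕ) = ∅ := rfl
      rw [h0, subset_empty] at hP
      exact hP
    have : ∑ i ∈ I, ∑ q ∈ P.filter (fun q => (c i q).Coprime q), E N q (c i q) = 0 := by
      apply sum_eq_zero
      intro a _
      rw [hPe]
      simp
    rw [this]
    positivity
  have hΛU : 1 ≤ Λ ^ (U + 1) := one_le_pow₀ hl1
  have hQ0 : (0:ℝ) ≤ Q := Nat.cast_nonneg Q
  have hQN : (Q:ℝ) ≤ N := by nlinarith
  have hQN' : Q ≤ N := by exact_mod_cast hQN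
  set V : ℝ := Λ ^ (U + 4) with hV
  have hV0 : 0 < V := by positivity
  have hVΛ : Λ ≤ V := by
    calc Λ = Λ ^ 1 := (pow_one Λ).symm
      _ ≤ Λ ^ (U + 4) := pow_le_pow_right₀ hl1 (by omega)
  set R := cut2 V N with hR
  set g : ℕ → ℕ → ℝ := fun q r => ‖Al N q R (r : ZMod q)‖ with hg
  have hm0 : ∀ q, 0 ≤ min (low2 V N q) (N:ℝ) := fun q => le_min (low2_nonneg _ _ _) hN0.le
  have s1 : ∑ i ∈ I, ∑ q ∈ P.filter (fun q => (c i q).Coprime q), E N q (c i q) ≤
      ∑ i ∈ I, ∑ q ∈ P.filter (fun q => (c i q).Coprime q),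
        (min (low2 V N q) N + g q (c i q % q)) := by
    apply sum_le_sum
    intro i _
    apply sum_le_sum
    intro q hq
    rw [mem_filter] at hq
    have hq1 : 1 ≤ q := (mem_Icc.1 (hP hq.1)).1
    have h1 := E_le2 V N q (c i q) hq1 hq.2
    have h2 := E_triv N q (c i q) hq1
    have h3 : g q (c i q % q) = ‖Al N q R (c i q : ZMod q)‖ := by
      simp only [hg]
      rw [ZMod.natCast_mod]
    have h4 : 0 ≤ ‖Al N q R (c i q : ZMod q)‖ := norm_nonneg _
    rw [h3]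
    rcases min_choice (low2 V N q) (N:ℝ) with h | h
    · rw [h]
      exact h1
    · rw [h]
      linarith
  have s2 : ∑ i ∈ I, ∑ q ∈ P.filter (fun q => (c i q).Coprime q),
        (min (low2 V N q) N + g q (c i q % q)) ≤
      n * ∑ q ∈ P, min (low2 V N q) N +
        ∑ i ∈ I, ∑ q ∈ P.filter (fun q => (c i q).Coprime q), g q (c i q % q) := by
    rw [hn, ← nsmul_eq_mul, ← sum_const, ← sum_add_distrib]
    apply sum_le_sum
    intro i _
    rw [sum_add_distrib]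
    apply add_le_add_left
    exact sum_le_sum_of_subset_of_nonneg (filter_subset _ _) fun q _ _ => hm0 q
  have s3 : ∑ q ∈ P, min (low2 V N q) (N:ℝ) ≤ C1 * u := by
    refine (sum_le_sum_of_subset_of_nonneg hP fun q _ _ => hm0 q).trans ?_
    apply hC1 N hN V le_rfl Q hQ (fun q => min (low2 V N q) (N:ℝ))
    · intro d _
      have h1 : 0 ≤ (N : ℝ) / (d * V) := by positivity
      exact (min_le_left _ _).trans (by linarith)
    · intro d _
      exact min_le_right _ _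
  have s5 := high_sum2 N hN V hVΛ Q hQ1 hQN'
  have s6 := cs_partR I c Q P hP g
  set W : ℝ := Λ ^ (3 * (U + 4)) with hW
  have hW0 : 0 < W := by positivity
  have hVW : V ^ 5 ≤ W ^ 2 := by
    rw [hV, hW, ← pow_mul, ← pow_mul]
    exact pow_le_pow_right₀ hl1 (by omega)
  have s8 : ∑ i ∈ I, ∑ q ∈ P.filter (fun q => (c i q).Coprime q), g q (c i q % q) ≤
      40 * (Real.sqrt (enR I c P * (Q * N)) * W) := by
    refine s6.trans ?_
    rw [← Real.sqrt_mul (Nat.cast_nonneg _)]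
    have h1 : (enR I c P : ℝ) * ∑ q ∈ Icc 1 Q, ∑ r ∈ range q, g q r ^ 2 ≤
        (enR I c P * (Q * N)) * (40 * W) ^ 2 := by
      calc (enR I c P : ℝ) * ∑ q ∈ Icc 1 Q, ∑ r ∈ range q, g q r ^ 2 ≤
          enR I c P * (1552 * Q * N * V ^ 5) := by gcongr
        _ ≤ enR I c P * (1552 * Q * N * W ^ 2) := by gcongr
        _ ≤ enR I c P * (1600 * Q * N * W ^ 2) := by gcongr; norm_num
        _ = _ := by ring
    refine (Real.sqrt_le_sqrt h1).trans ?_
    rw [Real.sqrt_mul (by positivity), Real.sqrt_sq (by positivity)]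
    apply le_of_eq
    ring
  have s11 : n * ∑ q ∈ P, min (low2 V N q) (N:ℝ) ≤ C1 * (n * u) := by
    calc n * ∑ q ∈ P, min (low2 V N q) (N:ℝ) ≤ n * (C1 * u) := by gcongr
      _ = _ := by ring
  have p1 : 0 ≤ n * u := by positivity
  have p2 : 0 ≤ C1 * (Real.sqrt (enR I c P * (Q * N)) * W) := by positivity
  calc _ ≤ _ := s1
    _ ≤ _ := s2
    _ ≤ C1 * (n * u) + 40 * (Real.sqrt (enR I c P * (Q * N)) * W) := by linarith
    _ ≤ C1 * (n * u) + 40 * (Real.sqrt (enR I c P * (Q * N)) * W) +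
        40 * (n * u) + C1 * (Real.sqrt (enR I c P * (Q * N)) * W) := by linarith
    _ = _ := by ring

end Pool.Agent.TH926.FFR
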